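import Pool.Agent.Helper13.RG.Stmts

/-!
# NGB: base changes of nongeometric sections are nongeometric
-/

set_option autoImplicit false

open scoped Classical

namespace Pool.Agent.Helper13.RG

open Pool.Agent.Helper14.BSC Pool.Agent.Helper13.ZL

/-- the value of `x` at `P` is `0` -/
def ngbZ {k Ω : Type} [Field k] [Field Ω] [Algebra k Ω] {D : Sec k Ω} {p : ℕ} [Fact p.Prime]
    {σ : k →+* ℂ_[p]} (P : Place D p σ) (x : LL D) : Prop :=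
  ∃ h : x ∈ P.C, P.φ ⟨x, h⟩ = 0

theorem ngb_mul {k Ω : Type} [Field k] [Field Ω] [Algebra k Ω] {D : Sec k Ω} {p : ℕ} [Fact p.Prime]
    {σ : k →+* ℂ_[p]} (P : Place D p σ) {x y : LL D} (hx : ngbZ P x) (hy : ngbZ P y) :
    ngbZ P (x * y) := by
  obtain ⟨h1, h2⟩ := hx
  obtain ⟨h3, h4⟩ := hy
  refine ⟨mul_mem h1 h3, ?_⟩
  have e : (⟨x * y, mul_mem h1 h3⟩ : P.C) = ⟨x, h1⟩ * ⟨y, h3⟩ := rfl
  rw [e, map_mul, h2, zero_mul]

theorem ngb_sub (h1 : ST_VEMB) (h2 : ST_PEX) (h3 : ST_COI) {k Ω : Type} [Field k] [NumberField k]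
    [Field Ω] [Algebra k Ω] [IsAlgClosed Ω] (D : Sec k Ω) (h : LL D) :
    {v : Pl k | CO D v h} ⊆ SetZ D (h - 1) ∪ (SetZ D h ∪ SetZ D h⁻¹) := by
  intro v hv
  obtain ⟨p, hp, σ, _, hov, -, -⟩ := h1 k v
  obtain ⟨P⟩ := h2 k Ω D p σ
  by_cases hC : h ∈ P.C
  · by_cases h0 : P.φ ⟨h, hC⟩ = 0
    · right; left
      exact ⟨p, hp, σ, P, hC, hov, by rw [h0, norm_zero]; exact one_pos⟩
    · left
      have key := h3 k Ω D v p σ P hov ⟨h, hC⟩ h0 hv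
      refine ⟨p, hp, σ, P, sub_mem hC (one_mem _), hov, ?_⟩
      have e : (⟨h - 1, sub_mem hC (one_mem _)⟩ : P.C) = ⟨h, hC⟩ - 1 := rfl
      rw [e, map_sub, map_one]
      exact key
  · right; right
    have hC' : h⁻¹ ∈ P.C := (P.C.mem_or_inv_mem h).resolve_left hC
    have h0 : P.φ ⟨h⁻¹, hC'⟩ = 0 := by
      rw [P.ker]
      right
      change (h⁻¹)⁻¹ ∉ P.C
      rw [inv_inv]
      exact hC
    exact ⟨p, hp, σ, P, hC', hov, by rw [h0, norm_zero]; exact one_pos⟩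

theorem st_NGB (hZERO : ST_ZERO) (hVOV : ST_VOV) (hCOI : ST_COI) (hCOP : ST_COP) (hVEMB : ST_VEMB)
    (hPEX : ST_PEX) (hEXB : ST_EXB) (hDWG : Pool.Agent.Helper22.FF.ST_DWG) (hORB : ST_ORB)
    (hTRV : ST_TRV) (hDLIB : ST_DLIB) : ST_NGB := by
  intro k k₁ Ω _ _ _ _ _ _ _ _ j D D₁ hBC hNG h hNC
  by_contra hnull
  obtain ⟨d1, d2, d3, d4⟩ := hDLIB k₁
  -- an element with value zero everywhere
  obtain ⟨f, hf0, hfZ⟩ : ∃ f : LL D₁, f ≠ 0 ∧ ¬ Null (SetZ D₁ f) := by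
    by_contra hcon
    push Not at hcon
    have hh0 : h ≠ 0 := by
      intro e
      exact hNC 0 (by rw [e, map_zero])
    have hh1 : h - 1 ≠ 0 := by
      intro e
      exact hNC 1 (by rw [map_one]; exact sub_eq_zero.1 e)
    exact hnull (d1 _ _ (ngb_sub hVEMB hPEX hCOI D₁ h)
      (d2 _ _ (hcon _ hh1) (d2 _ _ (hcon _ hh0) (hcon _ (inv_ne_zero hh0)))))
  have hz : ∀ (p : ℕ) [Fact p.Prime] (σ : k₁ →+* ℂ_[p]) (P : Place D₁ p σ), ngbZ P f := by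
    intro p _ σ P
    obtain ⟨v, hv⟩ := hVOV k₁ p σ
    exact hZERO k₁ Ω D₁ f hfZ v p σ P hv
  -- the orbit
  obtain ⟨F, hF, hprod⟩ := hORB k Ω D (f : Ω)
  have hne : F.Nonempty := ⟨(f : Ω), (hF _).2 ⟨1, by rw [map_one]; rfl⟩⟩
  have hall : ∃ hy : (∏ y ∈ F, y) ∈ LL D₁, ∀ (p : ℕ) [Fact p.Prime] (σ : k₁ →+* ℂ_[p])
      (P : Place D₁ p σ), ngbZ P ⟨∏ y ∈ F, y, hy⟩ := by
    refine Finset.prod_induction_nonempty (fun y : Ω => y)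
      (fun y : Ω => ∃ hy : y ∈ LL D₁, ∀ (p : ℕ) [Fact p.Prime] (σ : k₁ →+* ℂ_[p])
      (P : Place D₁ p σ), ngbZ P ⟨y, hy⟩) ?_ hne ?_
    · rintro a b ⟨ha, ha'⟩ ⟨hb, hb'⟩
      refine ⟨mul_mem ha hb, ?_⟩
      intro p _ σ P
      exact ngb_mul P (ha' p σ P) (hb' p σ P)
    · intro y hy
      obtain ⟨g, hg⟩ := (hF y).1 hy
      have hyL : y ∈ LL D₁ := by
        rw [← hg]
        exact hBC.stL g _ f.2
      refine ⟨hyL, ?_⟩
      intro p _ σ P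
      obtain ⟨σ', P', -, hiff, hval⟩ := hTRV k k₁ Ω j D D₁ hBC g f ⟨y, hyL⟩ hg.symm p σ P
      obtain ⟨h5, h6⟩ := hz p σ' P'
      have h7 : (⟨y, hyL⟩ : LL D₁) ∈ P.C := hiff.2 h5
      exact ⟨h7, by rw [hval h7 h5]; exact h6⟩
  obtain ⟨hW1, hW2⟩ := hall
  -- the product as an element of the fixed field of `D`
  have hzD : ∀ (p : ℕ) [Fact p.Prime] (σ : k →+* ℂ_[p]) (P : Place D p σ),
      ngbZ P ⟨∏ y ∈ F, y, hprod⟩ := by
    intro p _ σ P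
    obtain ⟨σ₁, hσ₁⟩ := hEXB k k₁ j p σ
    obtain ⟨P₁⟩ := hPEX k₁ Ω D₁ p σ₁
    obtain ⟨h5, h6⟩ := hW2 p σ₁ P₁
    have hD := hDWG k k₁ Ω j D D₁ hBC.hj hBC.sub p σ σ₁ hσ₁ P P₁ ⟨∏ y ∈ F, y, hprod⟩
      ⟨∏ y ∈ F, y, hW1⟩ rfl
    have h7 := hD.1.2 h5
    exact ⟨h7, by rw [hD.2 h7 h5]; exact h6⟩
  have hW0 : (⟨∏ y ∈ F, y, hprod⟩ : LL D) ≠ 0 := by
    intro e
    have e2 : (∏ y ∈ F, y) = 0 := congrArg (fun z : LL D => (z : Ω)) e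
    rw [Finset.prod_eq_zero_iff] at e2
    obtain ⟨y, hy, hy0⟩ := e2
    obtain ⟨g, hg⟩ := (hF y).1 hy
    rw [hy0] at hg
    have : (f : Ω) = 0 := (map_eq_zero (D.s g)).1 hg
    exact hf0 (Subtype.ext this)
  generalize (⟨∏ y ∈ F, y, hprod⟩ : LL D) = z at hzD hW0
  obtain ⟨e1, e2, e3, e4⟩ := hDLIB k
  -- `z + 1` is not constant
  have hNC' : NC D (z + 1) := by
    intro c hc
    have hne' : Nonempty (Pl k) := by
      by_contra hem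
      apply e4
      apply e3
      rw [not_nonempty_iff] at hem
      exact Set.toFinite _
    obtain ⟨v⟩ := hne'
    obtain ⟨p, hp, σ, _, hov, -, -⟩ := hVEMB k v
    obtain ⟨P⟩ := hPEX k Ω D p σ
    obtain ⟨h5, h6⟩ := hzD p σ P
    obtain ⟨h7, h8⟩ := P.base (c - 1)
    have hz' : z = algebraMap k (LL D) (c - 1) := by
      rw [map_sub, map_one, ← hc]; ring
    subst hz'
    have h9 : σ (c - 1) = 0 := by rw [← h8]; exact h6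
    have h10 : c - 1 = 0 := (map_eq_zero σ).1 h9
    exact hW0 (by rw [h10, map_zero])
  apply e4
  refine e1 _ _ ?_ (hNG (z + 1) hNC')
  intro v _
  obtain ⟨p, hp, σ, _, hov, -, -⟩ := hVEMB k v
  obtain ⟨P⟩ := hPEX k Ω D p σ
  obtain ⟨h5, h6⟩ := hzD p σ P
  have h7 : z + 1 ∈ P.C := add_mem h5 (one_mem _)
  refine hCOP k Ω D v p σ P hov ⟨z + 1, h7⟩ ?_
  have e : (⟨z + 1, h7⟩ : P.C) = ⟨z, h5⟩ + 1 := rfl
  rw [e, map_add, h6, map_one, zero_add, sub_self, norm_zero]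
  exact one_pos

end Pool.Agent.Helper13.RG
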